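import Pool.Agent.N520.RO.Stm4c
import Pool.Agent.R522.Mk.Rk3

/-!
Project RO, second part: `SL(2, ℝ)` has rank one.
-/

set_option autoImplicit false

open Set Filter Topology Metric
open Pool.Agent.R522.Mk.Rk

namespace Pool.Agent.N624.RO

open Pool.Agent.N520.RO

theorem S_mono {M N : ℝ} (h : M ≤ N) {g : G} (hg : g ∈ S M) : g ∈ S N := fun i j => (hg i j).trans h

theorem dg_add (s t : ℝ) : dg (s + t) = dg s * dg t := by
  apply ext4
  · rw [mul_ent, dg00, dg00, dg00, dg01, dg10, Real.exp_add]; ring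
  · rw [mul_ent, dg01, dg01, dg01]; ring
  · rw [mul_ent, dg10, dg10, dg10]; ring
  · rw [mul_ent, dg11, dg11, dg11, dg10, dg01, ← Real.exp_add]; ring_nf

theorem exp_cancel (t : ℝ) : Real.exp (-t) * Real.exp t = 1 := by rw [← Real.exp_add]; simp

/-- `SL(2, ℝ)` has rank one -/
theorem t_sl2i : S_SL2I := by
  refine ⟨S 2, Bor, wy, ?_⟩
  constructor
  · exact isCompact_S 2
  · exact dg_add
  · intro g
    obtain ⟨k, hk, l, hl, t, -, h⟩ := kak g
    exact ⟨k, S_mono (by norm_num) hk, t, l, S_mono (by norm_num) hl, h⟩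
  · intro g
    obtain ⟨l, hl, b, hb, h⟩ := iwa g
    exact ⟨l, S_mono (by norm_num) hl, b, hb, h⟩
  · intro p hp
    have hp0 : p.1 1 0 = 0 := hp
    have hdet := det_eq p
    rw [hp0, mul_zero, sub_zero] at hdet
    have ha : p.1 0 0 ≠ 0 := left_ne_zero_of_mul (hdet ▸ one_ne_zero)
    have habs : 0 < |p.1 0 0| := abs_pos.2 ha
    set s := Real.log |p.1 0 0| with hs
    have hes : Real.exp s = |p.1 0 0| := Real.exp_log habs
    have hes' : Real.exp (-s) = |p.1 0 0|⁻¹ := by rw [Real.exp_neg, hes]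
    refine ⟨s, ?_⟩
    have htend : Tendsto (fun t : ℝ => Real.exp (-t) * Real.exp (-t) * |Real.exp (-s) * p.1 0 1|)
        atTop (𝓝 (0 * 0 * |Real.exp (-s) * p.1 0 1|)) :=
      ((Real.tendsto_exp_neg_atTop_nhds_zero.mul Real.tendsto_exp_neg_atTop_nhds_zero).mul_const _)
    have hev : ∀ᶠ t : ℝ in atTop,
        Real.exp (-t) * Real.exp (-t) * |Real.exp (-s) * p.1 0 1| < 2 := by
      apply htend.eventually_lt_const
      norm_num
    filter_upwards [hev] with t ht
    have e00 : (dg (-s) * p).1 0 0 = |p.1 0 0|⁻¹ * p.1 0 0 := by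
      rw [mul_ent, dg00, dg01, hes']; ring
    have e01 : (dg (-s) * p).1 0 1 = Real.exp (-s) * p.1 0 1 := by
      rw [mul_ent, dg00, dg01]; ring
    have e10 : (dg (-s) * p).1 1 0 = 0 := by
      rw [mul_ent, dg10, dg11, hp0]; ring
    have e11 : (dg (-s) * p).1 1 1 = |p.1 0 0| * p.1 1 1 := by
      rw [mul_ent, dg10, dg11, neg_neg, hes]; ring
    have hc := exp_cancel t
    apply mem_S
    · have : (dg (-t) * (dg (-s) * p) * dg t).1 0 0 = |p.1 0 0|⁻¹ * p.1 0 0 := by
        rw [mul_ent, mul_ent, mul_ent (dg (-t)), e00, e01, e10, e11, dg00, dg01, dg00, dg10]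
        linear_combination (|p.1 0 0|⁻¹ * p.1 0 0) * hc
      rw [this, abs_mul, abs_inv, abs_abs, inv_mul_cancel₀ habs.ne']
      norm_num
    · have : (dg (-t) * (dg (-s) * p) * dg t).1 0 1 =
          Real.exp (-t) * Real.exp (-t) * (Real.exp (-s) * p.1 0 1) := by
        rw [mul_ent, mul_ent, mul_ent (dg (-t)), e00, e01, e10, e11, dg00, dg01, dg01, dg11]
        ring
      rw [this, abs_mul, abs_of_pos (mul_pos (Real.exp_pos _) (Real.exp_pos _))]
      exact ht.le
    · have : (dg (-t) * (dg (-s) * p) * dg t).1 1 0 = 0 := by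
        rw [mul_ent, mul_ent, mul_ent (dg (-t)), e00, e01, e10, e11, dg10, dg11, dg00, dg10]
        ring
      rw [this, abs_zero]
      norm_num
    · have : (dg (-t) * (dg (-s) * p) * dg t).1 1 1 = |p.1 0 0| * p.1 1 1 := by
        rw [mul_ent, mul_ent, mul_ent (dg (-t)), e00, e01, e10, e11, dg10, dg11, dg01, dg11, neg_neg]
        linear_combination (|p.1 0 0| * p.1 1 1) * hc
      rw [this, abs_mul, abs_abs, ← abs_mul, hdet]
      norm_num
  · intro m
    by_cases hm : m.1 1 0 = 0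
    · exact Or.inl hm
    · right
      let b1 : G := mk2 1 (m.1 0 0 / m.1 1 0) 0 1 (by ring)
      have hb1 : b1.1 1 0 = 0 := rfl
      let b2 : G := wy⁻¹ * b1⁻¹ * m
      have hb2 : b2.1 1 0 = 0 := by
        have w10 : (wy⁻¹).1 1 0 = -1 := by rw [inv10]; rfl
        have w11 : (wy⁻¹).1 1 1 = 0 := by rw [inv11]; rfl
        show (wy⁻¹ * b1⁻¹ * m).1 1 0 = 0
        rw [mul_ent, mul_ent, mul_ent, w10, w11, inv00, inv01, inv10, inv11]
        show (-1 * (1 : ℝ) + 0 * (-0)) * m.1 0 0 +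
          (-1 * (-(m.1 0 0 / m.1 1 0)) + 0 * (1 : ℝ)) * m.1 1 0 = 0
        field_simp
        ring
      have hmb : m = b1 * wy * b2 := by
        show m = b1 * wy * (wy⁻¹ * b1⁻¹ * m)
        group
      exact ⟨b1, hb1, b2, hb2, hmb⟩
  · refine Eventually.of_forall fun t => ?_
    have w00 : wy.1 0 0 = 0 := rfl
    have w01 : wy.1 0 1 = -1 := rfl
    have w10 : wy.1 1 0 = 1 := rfl
    have w11 : wy.1 1 1 = 0 := rfl
    have hc := exp_cancel t
    have e : dg t * wy * dg t = wy := by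
      apply ext4
      · rw [mul_ent, mul_ent, mul_ent, w00, w01, w10, w11, dg00, dg01, dg10]; ring
      · rw [mul_ent, mul_ent, mul_ent, w00, w01, w10, w11, dg00, dg01, dg11]
        linear_combination (-1) * hc
      · rw [mul_ent, mul_ent, mul_ent, w00, w01, w10, w11, dg00, dg10, dg11]
        linear_combination hc
      · rw [mul_ent, mul_ent, mul_ent, w00, w01, w10, w11, dg01, dg10, dg11]; ring
    rw [e]
    apply mem_S
    · rw [w00]; norm_num
    · rw [w01]; norm_num
    · rw [w10]; norm_num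
    · rw [w11]; norm_num

end Pool.Agent.N624.RO
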